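import Pool.Agent.Helper9.MP.Lib
import Pool.Agent.Helper57.MP.HECKE

/-! Module HPE of MP_bde085_nt: the Hecke relation at primitive Hecke points. -/

set_option autoImplicit false

namespace Pool.Agent.Helper96.MP

open Complex MeasureTheory Filter Topology
open scoped MatrixGroups

lemma hpe_act_im (t : ℕ × ℕ × ℕ) (z : ℂ) :
    (act t z).im = (t.1 : ℝ) * z.im / (t.2.2 : ℝ) := by
  unfold act
  rw [Complex.div_natCast_im]
  simp

lemma hpe_pos {p j : ℕ} (hp : p.Prime) {t : ℕ × ℕ × ℕ} (ht : t ∈ Tn (p ^ j)) :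
    0 < t.1 ∧ 0 < t.2.2 := by
  simp only [Tn, Finset.mem_filter] at ht
  have h1 : 0 < p ^ j := pow_pos hp.pos j
  rw [← ht.2.1] at h1
  exact ⟨Nat.pos_of_mul_pos_right h1, Nat.pos_of_mul_pos_left h1⟩

lemma hpe_act_mem {p j : ℕ} (hp : p.Prime) {t : ℕ × ℕ × ℕ} (ht : t ∈ Pj p j) {z : ℂ}
    (hz : z ∈ UH) : act t z ∈ UH := by
  have h1 := hpe_pos hp (Finset.mem_filter.1 ht).1
  have h2 : (0 : ℝ) < t.1 := by exact_mod_cast h1.1
  have h3 : (0 : ℝ) < t.2.2 := by exact_mod_cast h1.2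
  have h4 : 0 < z.im := hz
  change 0 < (act t z).im
  rw [hpe_act_im]
  positivity

lemma hpe_per (b : ℕ → ℂ) (z : ℂ) : ((z + 1).im : ℂ) * qs b (z + 1) = (z.im : ℂ) * qs b z := by
  have h1 : (z + 1).im = z.im := by simp
  rw [h1]
  congr 1
  unfold qs
  refine tsum_congr (fun k => ?_)
  congr 1
  rw [Complex.exp_eq_exp_iff_exists_int]
  exact ⟨(k : ℤ), by push_cast; ring⟩

lemma hpe_one {N p : ℕ} {b : ℕ → ℂ} {α : ℝ} (hp : p.Prime) (hb : Cusp N b)
    (hα : ∀ n, Tl p b n = (α : ℂ) * b n) {z : ℂ} (hz : z ∈ UH) :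
    ∑ t ∈ Tn p, ((act t z).im : ℂ) * qs b (act t z) = (α : ℂ) * ((z.im : ℂ) * qs b z) := by
  have h1 := hecke_hasSum hp hb (τ := z) hz
  have h2 : HasSum (fun k : ℕ => Tl p b k * exp (2 * (Real.pi : ℂ) * I * (k : ℂ) * z))
      ((α : ℂ) * qs b z) := by
    have h3 := (hb.sum z hz).hasSum.mul_left (α : ℂ)
    refine h3.congr_fun ?_ |> fun h => h
    intro k
    rw [hα, mul_assoc]
  have h4 := h1.unique h2
  have h5 : ∑ t ∈ Tn p, ((act t z).im : ℂ) * qs b (act t z)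
      = (z.im : ℂ) * heckeG p (qs b) z := by
    unfold heckeG
    rw [Finset.mul_sum]
    refine Finset.sum_congr rfl (fun t ht => ?_)
    have h6 : (t.1 * t.2.2 : ℕ) = p := (Finset.mem_filter.1 ht).2.1
    have h7 : (t.2.2 : ℂ) ≠ 0 := by
      have ht' : t ∈ Tn (p ^ 1) := by rw [pow_one]; exact ht
      have := (hpe_pos hp ht').2
      exact_mod_cast this.ne'
    have h8 : (p : ℂ) = (t.1 : ℂ) * (t.2.2 : ℂ) := by
      rw [← h6]; push_cast; ring
    have h9 : act t z = ((t.1 : ℂ) * z + (t.2.1 : ℂ)) / (t.2.2 : ℂ) := rfl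
    rw [hpe_act_im, h9, h8]
    push_cast
    field_simp
  rw [h5, h4]
  ring

lemma hpe_zero (p : ℕ) : Pj p 0 = {(1, 0, 1)} := by
  unfold Pj
  rw [pow_zero]
  decide

theorem st_HPE (hHPC : ST_HPC) : ST_HPE := by
  intro N p b α hN hp hb hα j
  have h0 : ∀ z ∈ UH, ∑ t ∈ Pj p 0, ((act t z).im : ℂ) * qs b (act t z)
      = (bet p α 0 : ℂ) * ((z.im : ℂ) * qs b z) := by
    intro z hz
    rw [hpe_zero, Finset.sum_singleton]
    have : act (1, 0, 1) z = z := by simp [act]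
    rw [this]
    simp [bet]
  have h1 : ∀ z ∈ UH, ∑ t ∈ Pj p 1, ((act t z).im : ℂ) * qs b (act t z)
      = (bet p α 1 : ℂ) * ((z.im : ℂ) * qs b z) := by
    intro z hz
    rw [(hHPC p 1 hp).2.1, hpe_one hp hb hα hz]
    simp [bet]
  have hstep : ∀ j, 1 ≤ j → ∀ z ∈ UH,
      (∀ z ∈ UH, ∑ t ∈ Pj p j, ((act t z).im : ℂ) * qs b (act t z)
        = (bet p α j : ℂ) * ((z.im : ℂ) * qs b z)) →
      (∀ z ∈ UH, ∑ t ∈ Pj p (j - 1), ((act t z).im : ℂ) * qs b (act t z)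
        = (bet p α (j - 1) : ℂ) * ((z.im : ℂ) * qs b z)) →
      ∑ t ∈ Pj p (j + 1), ((act t z).im : ℂ) * qs b (act t z)
        = ((α : ℂ) * bet p α j - (if j = 1 then ((p : ℂ) + 1) else (p : ℂ)) * bet p α (j - 1))
          * ((z.im : ℂ) * qs b z) := by
    intro j hj z hz hA hB
    have h2 := (hHPC p j hp).2.2 hj (fun z => (z.im : ℂ) * qs b z) (fun z _ => hpe_per b z) z hz
    have h3 : ∑ t ∈ Pj p j, ∑ t' ∈ Pj p 1, ((act t' (act t z)).im : ℂ) * qs b (act t' (act t z))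
        = (α : ℂ) * ((bet p α j : ℂ) * ((z.im : ℂ) * qs b z)) := by
      rw [← hA z hz, Finset.mul_sum]
      refine Finset.sum_congr rfl (fun t ht => ?_)
      rw [h1 _ (hpe_act_mem hp ht hz)]
      simp [bet]
    rw [h3, hB z hz] at h2
    linear_combination -h2
  have hmain : ∀ j, (∀ z ∈ UH, ∑ t ∈ Pj p j, ((act t z).im : ℂ) * qs b (act t z)
        = (bet p α j : ℂ) * ((z.im : ℂ) * qs b z)) ∧
      (∀ z ∈ UH, ∑ t ∈ Pj p (j + 1), ((act t z).im : ℂ) * qs b (act t z)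
        = (bet p α (j + 1) : ℂ) * ((z.im : ℂ) * qs b z)) := by
    intro j
    induction j with
    | zero => exact ⟨h0, h1⟩
    | succ j ih =>
      refine ⟨ih.2, fun z hz => ?_⟩
      rw [hstep (j + 1) (by omega) z hz ih.2 (by rw [Nat.add_sub_cancel]; exact ih.1)]
      congr 1
      rcases j with _ | j
      · simp only [zero_add, Nat.sub_self, if_true, bet]
        push_cast
        ring
      · rw [if_neg (by omega), Nat.add_sub_cancel]
        simp only [bet]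
        push_cast
        ring
  exact (hmain j).1

end Pool.Agent.Helper96.MP
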