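import Pool.Agent.Helper9.MP.Lib

/-! Module TRF of MP_bde085_nt: transfer of the dimension bound to real symbols. -/

set_option autoImplicit false

namespace Pool.Agent.Helper96.MP

open Complex MeasureTheory Filter Topology
open scoped MatrixGroups

lemma trf_mo_mem {p x q y : ℤ} (h : 0 < p * y - x * q) {z : ℂ} (hz : z ∈ UH) :
    mo p x q y z ∈ UH := by
  have hne : (q : ℂ) * z + y ≠ 0 := by
    intro h0
    have him : ((q : ℂ) * z + y).im = 0 := by rw [h0]; simp
    have hre : ((q : ℂ) * z + y).re = 0 := by rw [h0]; simp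
    simp only [Complex.add_im, Complex.mul_im, Complex.intCast_re, Complex.intCast_im, zero_mul,
      add_zero] at him
    rcases mul_eq_zero.1 him with h2 | h2
    · simp only [Complex.add_re, Complex.mul_re, Complex.intCast_re, Complex.intCast_im, zero_mul,
        sub_zero, h2, zero_add] at hre
      have hq : q = 0 := by exact_mod_cast h2
      have hy : y = 0 := by exact_mod_cast hre
      rw [hq, hy] at h
      simp at h
    · exact absurd h2 (ne_of_gt hz)
  change 0 < (mo p x q y z).im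
  rw [Lib.mo_im _ _ _ _ _ hne]
  have h1 : (0 : ℝ) < ((p * y - x * q : ℤ) : ℝ) := by exact_mod_cast h
  have h2 : 0 < ‖(q : ℂ) * z + y‖ := norm_pos_iff.2 hne
  have h3 : 0 < z.im := hz
  positivity

lemma trf_neBot : (comap Complex.im (atTop : Filter ℝ)).NeBot :=
  Filter.NeBot.comap_of_surj (inferInstance) (fun y => ⟨⟨0, y⟩, rfl⟩)

lemma trf_ev : ∀ᶠ z in comap Complex.im (atTop : Filter ℝ), z ∈ UH :=
  (eventually_gt_atTop (0 : ℝ)).comap Complex.im

lemma trf_Fs_add (hQ : ST_QDIF) {N : ℕ} (hN : 1 ≤ N) {b b' : ℕ → ℂ} (hb : Cusp N b)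
    (hb' : Cusp N b') {τ : ℂ} (hτ : τ ∈ UH) : Fs (b + b') τ = Fs b τ + Fs b' τ := by
  have h1 := (hQ N b hN hb).2.2.2.1 τ hτ
  have h2 := (hQ N b' hN hb').2.2.2.1 τ hτ
  unfold Fs
  rw [← h1.tsum_add h2]
  refine tsum_congr (fun k => ?_)
  simp only [Pi.add_apply]
  ring

lemma trf_Fs_smul (c : ℂ) (b : ℕ → ℂ) (τ : ℂ) : Fs (c • b) τ = c * Fs b τ := by
  unfold Fs
  rw [← tsum_mul_left]
  refine tsum_congr (fun k => ?_)
  simp only [Pi.smul_apply, smul_eq_mul]
  ring

lemma trf_FC_add (hF : ST_FLIM) (hQ : ST_QDIF) {N : ℕ} (hN : 1 ≤ N) {b b' : ℕ → ℂ}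
    (hb : Cusp N b) (hb' : Cusp N b') (hbb : Cusp N (b + b')) {p x q y : ℤ}
    (h : 0 < p * y - x * q) : FC (b + b') p q = FC b p q + FC b' p q := by
  have := trf_neBot
  have h1 := ((hF N b hN hb).1 p x q y h).1
  have h2 := ((hF N b' hN hb').1 p x q y h).1
  have h3 := ((hF N _ hN hbb).1 p x q y h).1
  refine tendsto_nhds_unique h3 ((h1.add h2).congr' ?_)
  filter_upwards [trf_ev] with z hz
  exact (trf_Fs_add hQ hN hb hb' (trf_mo_mem h hz)).symm

lemma trf_FC_smul (hF : ST_FLIM) {N : ℕ} (hN : 1 ≤ N) {b : ℕ → ℂ} (c : ℂ)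
    (hb : Cusp N b) (hcb : Cusp N (c • b)) {p x q y : ℤ}
    (h : 0 < p * y - x * q) : FC (c • b) p q = c * FC b p q := by
  have := trf_neBot
  have h1 := ((hF N b hN hb).1 p x q y h).1
  have h3 := ((hF N _ hN hcb).1 p x q y h).1
  refine tendsto_nhds_unique h3 ((h1.const_mul c).congr' ?_)
  filter_upwards with z
  exact (trf_Fs_smul c b _).symm

theorem st_TRF (hSYM : ST_SYM) (hF : ST_FLIM) (hQ : ST_QDIF) (hFD : ST_FD) (hCOS : ST_COS) :
    ST_TRF := by
  intro N p α hN hp hpN hα S hS E hE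
  obtain ⟨S0, hS0, hfin0⟩ := hFD N hN
  have hSS0 : S ≤ S0 := fun b hb => (hS0 b).2 ((hS b).1 hb).1
  have hfin : FiniteDimensional ℂ S := Submodule.finiteDimensional_of_le hSS0
  let _ : Module ℝ S := Module.complexToReal S
  have hcusp : ∀ b : S, Cusp N b.1 := fun b => ((hS _).1 b.2).1
  have hdet : ∀ h : SL(2, ℤ), 0 < h 0 0 * h 1 1 - h 0 1 * h 1 0 := fun h => by
    rw [Lib.det1 h]; norm_num
  have hdet' : ∀ h : SL(2, ℤ), 0 < h 0 1 * (-(h 1 0)) - (-(h 0 0)) * h 1 1 := fun h => by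
    have := Lib.det1 h
    have h2 : h 0 1 * (-(h 1 0)) - (-(h 0 0)) * h 1 1 = 1 := by linarith
    rw [h2]; norm_num
  let L : S →ₗ[ℝ] (PN N → ℝ) :=
    { toFun := fun b x => (FC b.1 (rep N x 0 0) (rep N x 1 0)
        - FC b.1 (rep N x 0 1) (rep N x 1 1)).re
      map_add' := by
        intro b b'
        funext x
        have h1 := trf_FC_add hF hQ hN (hcusp b) (hcusp b') (hcusp (b + b')) (hdet (rep N x))
        have h2 := trf_FC_add hF hQ hN (hcusp b) (hcusp b') (hcusp (b + b')) (hdet' (rep N x))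
        have h3 : (b + b').1 = b.1 + b'.1 := rfl
        simp only [h3, h1, h2, Pi.add_apply, Complex.sub_re, Complex.add_re]
        ring
      map_smul' := by
        intro r b
        funext x
        have h0 : (r • b).1 = (r : ℂ) • b.1 := rfl
        have hc : Cusp N ((r : ℂ) • b.1) := by rw [← h0]; exact hcusp (r • b)
        have h1 := trf_FC_smul hF hN (r : ℂ) (hcusp b) hc (hdet (rep N x))
        have h2 := trf_FC_smul hF hN (r : ℂ) (hcusp b) hc (hdet' (rep N x))
        simp only [h0, h1, h2, Pi.smul_apply, Complex.sub_re, Complex.re_ofReal_mul, smul_eq_mul,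
          RingHom.id_apply]
        ring }
  have hEL : E ≤ LinearMap.range L := by
    intro v hv
    obtain ⟨h2, h3, hH⟩ := hE v hv
    obtain ⟨b, hb, hbl⟩ := hSYM N hN v h2 h3
    obtain ⟨hbe, hbv⟩ := hbl p α hp hpN hH
    refine ⟨⟨b, (hS b).2 ⟨hb, hbe⟩⟩, ?_⟩
    funext x
    have h4 := hbv hα (rep N x 0 0) (rep N x 0 1) (rep N x 1 0) (rep N x 1 1)
      (Lib.det1 (rep N x))
    change (FC b (rep N x 0 0) (rep N x 1 0) - FC b (rep N x 0 1) (rep N x 1 1)).re = v x
    rw [← h4]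
    have h5 := (hCOS N hN).1 x
    unfold ev
    rw [dif_pos (cls_uni N (rep N x))]
    exact congrArg v h5
  have : FiniteDimensional ℝ S := FiniteDimensional.complexToReal S
  calc Module.finrank ℝ E ≤ Module.finrank ℝ (LinearMap.range L) := Submodule.finrank_mono hEL
    _ ≤ Module.finrank ℝ S := LinearMap.finrank_range_le L
    _ = 2 * Module.finrank ℂ S := finrank_real_of_complex S

end Pool.Agent.Helper96.MP
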